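import Pool.Agent.K6.H18.Cubic.Linear

/-!
# The motivic Sato-Tate and Tate conjectures: reduction to one sequence of explicit smooth cubic
hypersurfaces

Let `k` be a field and `S` a countable subset such that `k` is a separable algebraic extension of
the subfield generated by `S`. If `k` is finitely generated of characteristic zero, `S` may be a
finite transcendence basis; if `k` is a number field, `S` may be empty.

The hypersurfaces. For polynomials `e_1, …, e_r`, `r > 0`, in `k[x_1, …, x_m]`, each of one of the
forms `x_a - x_b x_c`, `x_a - (x_b + x_c)`, `x_a - 1`, `x_a - s` with `s` in `S`
(`IsElementary S e`), let `V(e)` (`Hypersurface e`) be the hypersurface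
`∑ u_j e_j(x) = w (1 - w)`
in the affine space with coordinates `x_i`, `u_j`, `w`. It is smooth of dimension `m + r`, integral,
rational and of degree at most three (`IsRationalHypersurface e`). If `S` is empty then the
coefficients of these equations are `0`, `1`, `-1`.

Part 1: a universal sequence. `BM k`: Borel-Moore homology theories on the affine schemes of finite
type over `k`, with push-forward along closed immersions, pull-back along smooth morphisms,
localization sequences, homotopy invariance, and the usual compatibilities (for instance higher Chow
groups, singular, `ℓ`-adic, de Rham homology, with all their structures). There is a sequence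
`V_1, V_2, …` of hypersurfaces `V(e)` with constants in `S` such that for every affine scheme
`Spec B` of finite type over `k`, singular or not, for all but finitely many `N` and some `n`, the
homology of `Spec B` is a direct summand of the homology of `V_N`, with the weight shifted by `n`, in
all degrees, for all theories at the same time and compatibly with all morphisms of theories
(`IsSummand`).

Part 2: the conjecture. Let `k` be finitely generated of characteristic zero, `E` an algebraic
closure of `ℚ_ℓ`, `Γ` the absolute Galois group of `k` and `G` the group of `E`-points of the motivic
Galois group of the category of mixed motives over `k` (Nori, or Jannsen with absolute Hodge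
cycles), whose semisimple objects are the motives of the problem (Arapura; Jannsen). Let
`(T w).H B a b` be the part of weight `w` of the Borel-Moore homology of `Spec B` over the algebraic
closure of `k` in degree `a + 2b`, with coefficients in `E` and twisted by `-b`; for `Spec B` smooth
of pure dimension `d` this is the part of weight `w` of the cohomology in degree `2(d-b) - a` with
coefficients `E(d-b)`. The groups `Γ` and `G` act (`gal`, `mot`). `ZariskiDense T gal mot B b`: for
all `w` and `a`, the Zariski closure of `Γ` in the endomorphisms of the space `(T w).H B a b` contains
the image of `G`; this is the motivic Tate conjecture for this motive over `k`, pure of weight `w`.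
`TX X b` is the same statement for a variety `X`. For `X` smooth projective it is the motivic Tate
conjecture for all `h^i(X)(j)`, `j = dim X - b`. `𝒱` is the class of varieties with an ample family
of line bundles. It contains all smooth varieties (`h𝒱`) and all quasi-projective ones, in particular
the affine ones, and every variety in `𝒱` has a torsor under a vector bundle which is affine
(Jouanolou, Thomason), which gives `hTX`.

Q1 for all `M` over `k` is equivalent to the motivic Tate conjecture for all `M` (2019, see the
problem file). Every `M` which is pure of some weight is a direct summand of some `h^i(X)(j)`, `X`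
smooth projective, and the weight parts of the homology of all varieties are such motives. So Q1
over `k` is equivalent to the first and to the second of the following statements. They are
equivalent to each other and to the others:
* `TX X b` for all smooth varieties `X` over `k` and all `b`;
* `TX X b` for all varieties `X` in `𝒱` and all `b`;
* `TX V b` for all hypersurfaces `V = V(e)`, `e` elementary with constants in `S`, and all `b`;
* `TX V_N b` for all `b` and all `N` in a given infinite set.
So Q1 over `k` follows if it is true for the weight parts of the homology of infinitely many members
of one sequence of explicit smooth rational affine cubic hypersurfaces, given over number fields by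
equations with coefficients `0`, `1`, `-1`, the sequence being independent of `ℓ`. Moreover, for every
`X` in `𝒱` and all but finitely many `N` there is a number `n` such that for all `b` the instance of
`V_N` and `b + n` implies the instance of `X` and `b`.

Relation with the starting library: `MP_fc2ced_ag.CubicHypersurfaces` treats the Schur finiteness of
motives with the hypersurfaces `T(x, y, z) = 1`, that is `∑ u_j e_j = 1`. Our decomposition is also
used in the hand-ins CubicHypersurfaces on `MP_2a05c8_ag`, `MP_537ea0_ag`, `MP_a1cc03_ag` and
`MP_81632f_ag`, for properties which are compatible with direct sums; Zariski density is not, it only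
passes to direct summands, and the natural projections are needed.

Steps of the proof. (1) For every ring `B` and `e_1, …, e_r` in `B`, the scheme
`Spec B[u_1, …, u_r, w] / (∑ u_j e_j - w (1 - w))` is smooth over `Spec B` of relative dimension `r`.
If some `e_j` is invertible, it is an affine space over `Spec B`; if all `e_j` vanish, it is the
disjoint union of two affine spaces. (2) By induction on the number of nonzero `e_j`, with a diagram
chase in the localization sequences, its Borel-Moore homology is the direct sum of that of `Spec B`,
by pull-back, and that of `Spec B/(e_1, …, e_r)`, by pull-back to affine space and push-forward.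
(3) Every algebra of finite type over `k` is `k[x_1, …, x_m]/(e_1, …, e_r)` with `e_j` as above, with
constants in `k`. (4) If every relation `x_a - s` is replaced by the minimal polynomial of `s` over
the subfield generated by `S`, the algebra becomes a direct factor of the new one, which has a
presentation with constants in `S`; the homology of a direct factor is a direct summand. (5) `V_N`
belongs to the disjoint union of the first `N` hypersurfaces of an enumeration of all `V(e)`.
(6) Zariski closures: if `V` is a direct summand of `V'`, with maps `i`, `p` commuting with `Γ` and
`G`, then `f ↦ f(p ∘ - ∘ i)` maps the polynomial functions on `End V` to those on `End V'`.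
-/

set_option autoImplicit false

open AlgebraicGeometry CategoryTheory MvPolynomial

namespace Pool.Agent.Results.MP_d61fbb_ag.CubicHypersurfaces

open Pool.Agent.K6.H18.Cubic Pool.Agent.K6.H18.Cubic.Alg

/-- The homology of every affine scheme of finite type is a natural direct summand of the homology
of all but finitely many hypersurfaces of the sequence `v`, up to a shift of the weight. -/
def IsUniversal {k : Type} [CommRing k] (v : ℕ → EqnSystem k) : Prop :=
  ∀ B : Alg k, B.IsFiniteType → ∃ N₀ : ℕ, ∀ N ≥ N₀, ∃ n : ℕ,
    IsSummand B (Hypersurface (v N).eqs) n

/-- The hypersurface number `N` of the sequence as a scheme over `k`. -/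
noncomputable def member {k : Type} [CommRing k] (v : ℕ → EqnSystem k) (N : ℕ) :
    Over (Spec (CommRingCat.of k)) :=
  specOf (Hypersurface (v N).eqs)

/-- The conjecture `TX` for all `X` in `𝒱` is reduced to the sequence `v`. -/
structure IsReduced {k : Type} [CommRing k] (S : Set k) (v : ℕ → EqnSystem k)
    (𝒱 : Over (Spec (CommRingCat.of k)) → Prop) (TX : Over (Spec (CommRingCat.of k)) → ℤ → Prop) :
    Prop where
  tfae : ∀ I : Set ℕ, I.Infinite → List.TFAE [
    ∀ X, IsSmoothVariety X → ∀ b, TX X b,
    ∀ X, 𝒱 X → ∀ b, TX X b,
    ∀ (m r : ℕ) (e : Fin r → MvPolynomial (Fin m) k), IsElementary S e →
      ∀ b, TX (specOf (Hypersurface e)) b,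
    ∀ N ∈ I, ∀ b, TX (member v N) b]
  instances : ∀ X, 𝒱 X → ∃ N₀ : ℕ, ∀ N ≥ N₀, ∃ n : ℕ, ∀ b, TX (member v N) (b + n) → TX X b

/-- The homology of every variety is a natural direct summand of the homology of almost all members
of one sequence of explicit smooth rational cubic hypersurfaces; the motivic Tate conjecture for all
smooth varieties is equivalent to the one for infinitely many members of this sequence. -/
theorem result {k : Type} [Field k] (S : Set k) (hS : S.Countable)
    [Algebra.IsSeparable (Subfield.closure S) k] :
    (∀ (m r : ℕ) (e : Fin r → MvPolynomial (Fin m) k), IsElementary Set.univ e →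
      IsRationalHypersurface e) ∧
    ∃ v : ℕ → EqnSystem k, (∀ N, IsElementary S (v N).eqs) ∧ IsUniversal v ∧
      ∀ (E : Type) [Field E] (Γ G W : Type) (T : W → LinearBM k E) (gal : ∀ w, Γ → (T w).End)
        (mot : ∀ w, G → (T w).End) (𝒱 : Over (Spec (CommRingCat.of k)) → Prop)
        (TX : Over (Spec (CommRingCat.of k)) → ℤ → Prop),
        (∀ X, IsSmoothVariety X → 𝒱 X) → IsExtensionOf (ZariskiDense T gal mot) 𝒱 TX →
        IsReduced S v 𝒱 TX := by
  obtain ⟨v, hv, hsum, h⟩ := exists_sequence_inherited (k := k) hS
  refine ⟨fun _ _ e he => isRationalHypersurface e he, v, hv, hsum,
    fun E _ Γ G W T gal mot 𝒱 TX h𝒱 hTX => ?_⟩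
  obtain ⟨h1, h2⟩ := h _ (inherited_zariskiDense T gal mot) 𝒱 TX hTX
  refine ⟨fun I hI => ?_, h2⟩
  have h3 := h1 I hI
  have h01 := h3.out 0 1
  have h12 := h3.out 1 2
  have h13 := h3.out 1 3
  tfae_have 1 ↔ 2 :=
    ⟨fun h1 => h01.1 fun X _ hX => h1 X hX, fun h1 X hX => h01.2 h1 X (h𝒱 X hX) hX⟩
  tfae_have 2 ↔ 3 := h12
  tfae_have 2 ↔ 4 := h13
  tfae_finish

end Pool.Agent.Results.MP_d61fbb_ag.CubicHypersurfaces
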