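import Pool.Agent.K6.H92.Deg4e

set_option autoImplicit false

/-!
# The motivic Sato-Tate conjecture is a statement about Tate classes of degree at most four

Let `k` be a finitely generated field of characteristic zero and `M i` finitely many motives over `k` (of
André, or for absolute Hodge cycles); `V i = ℚ_ℓ ^ (n i)` are their `ℓ`-adic realizations with the
actions `ρ i` of the Galois group `Γ` of `k`, `M` is the direct sum of the `M i` and `V` the direct sum of
the `V i`. Let `𝔤` be the Lie algebra of the motivic Galois group of `M` over `ℚ_ℓ`. It is a reductive Lie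
algebra, it is determined by the tensors which it kills, and these are Tate tensors, as motivated classes are
Tate classes (`Motivic`: these are the only properties which are used). A *Tate tensor* is a tensor (a
multilinear form in any number of variables in `V` and in its dual space) which is fixed by a subgroup of
finite index of `Γ`.

The motivic Sato-Tate conjecture for `M` (equivalently the motivic Tate conjecture and the motivic
Mumford-Tate conjecture), up to the finite groups of components, is `AllTate`: the representation is
semisimple, and ALL Tate tensors are killed by `𝔤`; this says that the identity components of the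
`ℓ`-adic monodromy group and of the motivic Galois group are the same, and then the same holds for the
kernels of the multiplier.

**Theorem.** Let `𝔤` be as above (no condition on the type of `M`, its weights or its rank).

* (1) The conjecture holds for `M` if and only if the following four conditions are satisfied:
  `V` is semisimple; for all `i`, `j` the Tate classes in `Hom (M i, M j)` are killed by `𝔤`
  (`HomTate`); for all `i`, `j` the Tate classes in `Hom (End (M i), End (M j))` are killed by `𝔤`
  (`HomEndTate`); the Tate tensors on which `𝔤` acts through its largest abelian quotient are killed by `𝔤`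
  (`AbelianTate`: the conjecture for the potentially abelian objects of the tannakian category of `M`).
* (2) The fourth condition is not needed if the centre of `𝔤` is spanned by the weight operator (which
  is the multiplication by `w i` on `V i`), and some element of `Γ` acts purely of the weights `w i` if
  these are not all zero. For polarized `M i` of weights `w i` this is the case if the centres of
  their endomorphism algebras have trivial Rosati involution (there are no factors of type IV).
* (3) The fourth condition is not needed either if the determinants of one or several elements of `Γ` detect the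
  centre of `𝔤` (`DeterminantCondition`): for every nonzero `Z` in the centre of `𝔤` there are an
  element `γ` of `Γ` and an additive function `θ` on the multiplicative group of the algebraic closure of
  `ℚ_ℓ` such that the trace of `Z θ(γ)` is not zero, where `θ(γ)` is the multiplication by `θ(β)` on the generalized
  eigenspace of `γ` for every `β`. (If `γ` commutes with `Z` this trace is the sum of the numbers
  `z θ(det(γ | ker(Z - z)))` for the eigenvalues `z` of `Z`.)
* (4) In all of this, the condition `HomEndTate` can be replaced by the condition on ONE canonical class.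
  Suppose that `V` is semisimple. Let `L` be the Lie algebra of the endomorphisms of `V` which kill all Tate
  tensors (the Lie algebra of the `ℓ`-adic monodromy group), and `p` the orthogonal projection of `End V`
  onto `L` with respect to the trace form: it exists, and it is a Tate class in `End (End (M))`, fixed by the
  whole group `Γ`. If `HomTate` holds, then `p` is killed by `𝔤` if and only if `𝔤` is the sum of `L` and of
  its centre; and the conjecture holds for `M` if and only if `HomTate`, `AbelianTate` hold and `p` is killed
  by `𝔤`.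

So if `V` is semisimple and some Tate class, on any power of `M`, is not killed by `𝔤`, then there is such a
class in degree two, or in degree four (the class `p`), or an abelian one; and for a sum of motives only
pairs `M i`, `M j` have to be considered (the conditions `HomTate` and `HomEndTate` are about pairs).

For the motives `h^1(A)` of abelian varieties the first two conditions are the theorem of Faltings, and the
Mumford-Tate conjecture is known for the centres (Vasiu, Ullmo-Yafaev). So the Mumford-Tate conjecture for an
abelian variety `A` is equivalent to the statement that the one Tate class `p`, in the cohomology of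
`A ^ 4` in degree four, is a linear combination of Hodge classes. (These remarks are not used.)

## Proof

By the theorem on the Lie algebra of the Tate tensors (starting library) the trace form is
nondegenerate on `L`, `L` is contained in `𝔤` and stable under `Γ`; so `p` exists and is fixed by `Γ`. It only
depends on the diagonal blocks, so it has components in `Hom (End (M i), End (M j))`. If they are killed by
`𝔤`, then `L` is an ideal of `𝔤`, and for `X` in `𝔤` the difference `X - p X` normalizes `L` and is orthogonal
to it, so that it commutes with `L`. So it commutes with a subgroup of finite index of `Γ` (starting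
library), and then with `𝔤`, by `HomTate`. Hence `𝔤` is the sum of `L` and of central elements orthogonal to
`L`. These kill the Tate tensors by `AbelianTate`; they are zero in the situations (2) and (3), since the
weight operator and the (components of the) operators `θ(γ)` are in `L`.
-/

open Module TensorProduct

noncomputable section

namespace Pool.Agent.Results.MP_d61fbb_ag.DegreeFourPrinciple

open Pool.Agent.Y114.TF Pool.Agent.Y114.RM Pool.Agent.H204R3.GP Pool.Agent.R913.Adj
  Pool.Agent.K6.H92.D4

/-! ### One representation -/

section one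

variable {k V : Type} [Field k] [AddCommGroup V] [Module k V]

/-- The bracket. -/
def br (X Y : End k V) : End k V := X * Y - Y * X

/-- The trace form. -/
def tf (X Y : End k V) : k := LinearMap.trace k V (X * Y)

/-- `X` commutes with all elements of `𝔤`. -/
def CommAll (𝔤 : Submodule k (End k V)) (X : End k V) : Prop := ∀ Y ∈ 𝔤, X * Y = Y * X

/-- `p` is the orthogonal projection onto `L`, with respect to the trace form. -/
def IsProjection (L : Submodule k (End k V)) (p : End k (End k V)) : Prop :=
  ∀ X, p X ∈ L ∧ ∀ Y ∈ L, tf (p X) Y = tf X Y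

/-- The elements of `𝔤` kill `p`, that is, `p` commutes with the bracket with `X`. -/
def KilledBy (p : End k (End k V)) (X : End k V) : Prop := ∀ Y, p (br X Y) = br X (p Y)

/-- Every element of `𝔤` is the sum of an element of `L` and of an endomorphism which commutes
with `𝔤`. -/
def IsCentralExtension (𝔤 L : Submodule k (End k V)) : Prop :=
  ∀ X ∈ 𝔤, ∃ Z ∈ L, CommAll 𝔤 (X - Z)

/-- For some additive function `θ` on the multiplicative group of the algebraically closed field `K` the
trace of `Z * θ(g)` is not zero, where `θ(g)` is the multiplication by `θ(β)` on the generalized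
eigenspace of `g` for `β`, for every `β` in `K` (`IsOp`). -/
def DetectedBy (K : Type) [Field K] [CharZero K] [IsAlgClosed K] [Algebra k K]
    (Z g : End k V) : Prop :=
  ∃ (θ : Additive Kˣ →+ K) (Y : End K (K ⊗[k] V)), IsOp θ (g.baseChange K) Y ∧
    tf (Z.baseChange K) Y ≠ 0

variable {Γ : Type} [Group Γ] (ρ : Representation k Γ V) (𝔤 : Submodule k (End k V))

/-- The representation is semisimple under all subgroups of finite index, and the Tate tensors are exactly
the tensors killed by `𝔤`. -/
def IsFull : Prop :=
  FiniteIndexSemisimple ρ ∧
    ∀ (m : ℕ) (φ : Tensor k V m), TateTensor ρ φ ↔ ∀ X ∈ 𝔤, KillsTensor X φ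

/-- The Tate tensors which are killed by the brackets of elements of `𝔤` are killed by `𝔤`. -/
def IsAbelianTate : Prop :=
  ∀ (m : ℕ) (φ : Tensor k V m), TateTensor ρ φ →
    (∀ X ∈ 𝔤, ∀ Y ∈ 𝔤, KillsTensor (br X Y) φ) → ∀ X ∈ 𝔤, KillsTensor X φ

/-- `L` is the Lie algebra of the endomorphisms which kill all Tate tensors. -/
def IsTateLie (L : Submodule k (End k V)) : Prop :=
  ∀ X, X ∈ L ↔ ∀ (m : ℕ) (φ : Tensor k V m), TateTensor ρ φ → KillsTensor X φ

/-- The conjugation. -/
def conj (γ : Γ) (X : End k V) : End k V := ρ γ * X * ρ γ⁻¹

/-- `p` is fixed by the whole group. -/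
def Fixed (p : End k (End k V)) : Prop := ∀ γ Y, p (conj ρ γ Y) = conj ρ γ (p Y)

/-- **The determinant condition.** For every nonzero `Z` in the centre of `𝔤` there are an element `γ` of `Γ`
and an additive function `θ` such that the trace of `Z * θ(γ)` is not zero (see `DetectedBy`). -/
def Detects (K : Type) [Field K] [CharZero K] [IsAlgClosed K] [Algebra k K] : Prop :=
  ∀ Z ∈ 𝔤, CommAll 𝔤 Z → Z ≠ 0 → ∃ γ : Γ, DetectedBy K Z (ρ γ)

/-- One class: the orthogonal projection `p` onto the Lie algebra `L` of the endomorphisms which kill
all Tate tensors exists and is fixed by `Γ`; under the condition `H`, `p` is killed by `𝔤` if and only if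
`𝔤` is a central extension of `L`; and the conjecture holds if and only if `H` and the conjecture for `p` and
for the abelian part hold. -/
def IsOneClass (H : Prop) : Prop := ∃ (L : Submodule k (End k V)) (p : End k (End k V)),
  IsTateLie ρ L ∧ IsProjection L p ∧ Fixed ρ p ∧
  (H → ((∀ X ∈ 𝔤, KilledBy p X) ↔ IsCentralExtension 𝔤 L)) ∧
  (IsFull ρ 𝔤 ↔ H ∧ (∀ X ∈ 𝔤, KilledBy p X) ∧ IsAbelianTate ρ 𝔤)

end one

/-! ### Direct sums -/

section sums

variable {k : Type} [Field k] {ι : Type} [DecidableEq ι] {V : ι → Type}
  [∀ i, AddCommGroup (V i)] [∀ i, Module k (V i)]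

/-- The `i`-th diagonal block of an endomorphism of the direct sum (the elements of `𝔤` are block
diagonal). -/
def part (i : ι) (X : End k (∀ i, V i)) : End k (V i) :=
  LinearMap.proj i ∘ₗ X ∘ₗ LinearMap.single k V i

/-- The centre of `𝔤` consists of multiples of the weight operator, which is the multiplication by `w i` on
`V i`. -/
def HasWeightCentre [Fintype ι] (𝔤 : Submodule k (End k (∀ i, V i))) (w : ι → ℤ) : Prop :=
  ∀ Z ∈ 𝔤, CommAll 𝔤 Z → ∃ c : k, Z = c • weightOp (k := k) V w

end sums

section homs

variable {k : Type} [Field k] {V W : Type} [AddCommGroup V] [Module k V] [AddCommGroup W]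
  [Module k W] {Γ : Type} [Group Γ] (ρ : Representation k Γ V) (σ : Representation k Γ W)

/-- `P` is a Tate class in `Hom (V, W)`: it commutes with a subgroup of finite index of `Γ`. -/
def TateHom (P : V →ₗ[k] W) : Prop :=
  ∃ Δ : Subgroup Γ, Δ.FiniteIndex ∧ ∀ γ ∈ Δ, P ∘ₗ ρ γ = σ γ ∘ₗ P

/-- `P` commutes with `X` and `Y`. -/
def HomComm (P : V →ₗ[k] W) (X : End k V) (Y : End k W) : Prop := P ∘ₗ X = Y ∘ₗ P

/-- `T` is a Tate class in `Hom (End V, End W)`: it commutes with a subgroup of finite index of `Γ`. -/
def TateHomEnd (T : End k V →ₗ[k] End k W) : Prop :=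
  ∃ Δ : Subgroup Γ, Δ.FiniteIndex ∧ ∀ γ ∈ Δ, ∀ Y, T (conj ρ γ Y) = conj σ γ (T Y)

/-- `T` commutes with the brackets with `X` and `Y`. -/
def HomEndComm (T : End k V →ₗ[k] End k W) (X : End k V) (Y : End k W) : Prop :=
  ∀ Z, T (br X Z) = br Y (T Z)

end homs

/-! ### The setting -/

section defs

variable (Γ : Type) [Group Γ] {ι : Type} (n : ι → ℕ) (ℓ : ℕ) [Fact ℓ.Prime]

/-- The space `V i = ℚ_ℓ ^ (n i)`. -/
abbrev Sp (i : ι) : Type := Fin (n i) → ℚ_[ℓ]

/-- Representations of `Γ` on the spaces `V i = ℚ_ℓ ^ (n i)`. -/
abbrev Reps : Type := ∀ i, Representation ℚ_[ℓ] Γ (Sp n ℓ i)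

/-- Spaces of endomorphisms of the direct sum `V` of the spaces `V i`. -/
abbrev EndSpace : Type := Submodule ℚ_[ℓ] (End ℚ_[ℓ] (∀ i, Sp n ℓ i))

variable {Γ n ℓ} (ρ : Reps Γ n ℓ) (𝔤 : EndSpace n ℓ)

/-- The map from `Γ` to the matrices is continuous. -/
def ContRep {d : ℕ} [TopologicalSpace Γ] (r : Representation ℚ_[ℓ] Γ (Fin d → ℚ_[ℓ])) : Prop :=
  Continuous fun g => LinearMap.toMatrix' (r g)

/-- The representations are continuous. -/
def Conts [TopologicalSpace Γ] : Prop := ∀ i, ContRep (ρ i)

/-- Some element of `Γ` acts purely of the weights `w i`: its characteristic polynomials are rational, with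
all roots of absolute value `q ^ (w i / 2)` for some `q > 1`. -/
def Pure (w : ι → ℤ) : Prop := ∃ γ : Γ, ActsPurely ρ w γ

variable [DecidableEq ι]

/-- **The Tate classes in `Hom (M i, M j)` are killed by `𝔤`.** -/
def HomTate : Prop := ∀ (i j : ι) (P : Sp n ℓ i →ₗ[ℚ_[ℓ]] Sp n ℓ j), TateHom (ρ i) (ρ j) P →
  ∀ X ∈ 𝔤, HomComm P (part i X) (part j X)

/-- **The Tate classes in `Hom (End (M i), End (M j))` are killed by `𝔤`.** -/
def HomEndTate : Prop :=
  ∀ (i j : ι) (T : End ℚ_[ℓ] (Sp n ℓ i) →ₗ[ℚ_[ℓ]] End ℚ_[ℓ] (Sp n ℓ j)),
    TateHomEnd (ρ i) (ρ j) T → ∀ X ∈ 𝔤, HomEndComm T (part i X) (part j X)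

variable [Fintype ι]

/-- `𝔤` has the properties of the Lie algebra of the motivic Galois group (see `IsMotivic`). -/
def Motivic : Prop := IsMotivic ρ 𝔤

/-- The direct sum is semisimple as a representation of every subgroup of finite index. -/
def Semisimple : Prop := FiniteIndexSemisimple (sumRep ρ)

/-- The conjecture for the direct sum (see `IsFull`). -/
def AllTate : Prop := IsFull (sumRep ρ) 𝔤

/-- The conjecture for the abelian part (see `IsAbelianTate`). -/
def AbelianTate : Prop := IsAbelianTate (sumRep ρ) 𝔤

/-- See `HasWeightCentre`. -/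
def CentreIsWeight (w : ι → ℤ) : Prop := HasWeightCentre 𝔤 w

/-- The determinant condition, with the algebraic closure of `ℚ_ℓ` (see `Detects`). -/
def DeterminantCondition : Prop := Detects (sumRep ρ) 𝔤 (AlgebraicClosure ℚ_[ℓ])

/-- One class is enough, if the Tate conjecture holds for `Hom (M i, M j)` (see `IsOneClass`). -/
def OneClass : Prop := IsOneClass (sumRep ρ) 𝔤 (HomTate ρ 𝔤)

end defs

/-! ### Comparison with the helper files -/

section comp

variable {k V : Type} [Field k] [AddCommGroup V] [Module k V]

theorem isProjection_of {L : Submodule k (End k V)} {p : End k (End k V)}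
    (h : IsOrthProj L p) : IsProjection L p := fun X => ⟨(h X).1, fun Y hY => by
  have h1 := (h X).2 Y hY
  rw [sub_mul, map_sub, sub_eq_zero] at h1
  exact h1.symm⟩

end comp

theorem oneClass {ι : Type} [Fintype ι] [DecidableEq ι] {n : ι → ℕ} {ℓ : ℕ} [Fact ℓ.Prime]
    {Γ : Type} [Group Γ] [TopologicalSpace Γ] [IsTopologicalGroup Γ] [CompactSpace Γ]
    (ρ : Reps Γ n ℓ) (hρ : Conts ρ) (𝔤 : EndSpace n ℓ) (h𝔤 : Motivic ρ 𝔤) (hss : Semisimple ρ) :
    OneClass ρ 𝔤 := by
  obtain ⟨L, p, h1, h2, h3, h4, h5, h6⟩ := one_class hρ h𝔤 hss
  exact ⟨L, p, h1, isProjection_of h2, h3, h5, h6⟩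

/-- **The degree-four principle.** -/
theorem result {ι : Type} [Fintype ι] [DecidableEq ι] {n : ι → ℕ} {ℓ : ℕ} [Fact ℓ.Prime]
    {Γ : Type} [Group Γ] [TopologicalSpace Γ] [IsTopologicalGroup Γ] [CompactSpace Γ]
    (ρ : Reps Γ n ℓ) (hρ : Conts ρ) (𝔤 : EndSpace n ℓ) (h𝔤 : Motivic ρ 𝔤) :
    -- (1) the conjecture is equivalent to its part in degree at most four, and its abelian part
    (AllTate ρ 𝔤 ↔ Semisimple ρ ∧ HomTate ρ 𝔤 ∧ HomEndTate ρ 𝔤 ∧ AbelianTate ρ 𝔤) ∧
    -- (2) without factors of type IV there is no abelian part
    (∀ w : ι → ℤ, CentreIsWeight 𝔤 w → (w ≠ 0 → Pure ρ w) →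
      (AllTate ρ 𝔤 ↔ Semisimple ρ ∧ HomTate ρ 𝔤 ∧ HomEndTate ρ 𝔤)) ∧
    -- (3) nor under the determinant condition
    (DeterminantCondition ρ 𝔤 →
      (AllTate ρ 𝔤 ↔ Semisimple ρ ∧ HomTate ρ 𝔤 ∧ HomEndTate ρ 𝔤)) ∧
    -- (4) one class
    (Semisimple ρ → OneClass ρ 𝔤) :=
  ⟨main_iff hρ h𝔤, fun w hw hP => weight_iff hρ h𝔤 w hw hP, fun hD => det_iff hρ h𝔤 hD,
    fun hss => oneClass ρ hρ 𝔤 h𝔤 hss⟩

end Pool.Agent.Results.MP_d61fbb_ag.DegreeFourPrinciple

end
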