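import Pool.Agent.K6.H79.MT.Main

/-!
# The motivic Sato-Tate conjecture for sums of motives, from one Frobenius torus of maximal rank

Let `M i` be finitely many pure motives (of André, or for absolute Hodge cycles) over a finitely
generated field `k` of characteristic zero, of dimension `n i` and weight `w i`, and `M` their direct
sum. `Γ` is the Galois group of `k`, if `k` is a number field `K`, or the fundamental group of a model
of `k` over a number field `K`, with a `K`-rational point `s`. `ρ ℓ` are the `ℓ`-adic realizations, and
`𝔤` is the Lie algebra (over `ℚ`, in the Betti realization `Betti n`) of the motivic Galois group of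
`M`. Outside of the finite set `S` of places of `K` there is good reduction (at `s`), with the
Frobenius polynomials `P v i`. All this is the structure `Realizations` of the starting files, which
contains the properties of `𝔤` that are used: it is a reductive algebraic Lie algebra, and for all
`ℓ` the tensors which are killed by `𝔤 ⊗ ℚ_ℓ` (the motivated classes) are Tate tensors, that is, fixed
by a subgroup of finite index of `Γ`.

The conjecture Q1, in the equivalent form of the motivic Tate or Mumford-Tate conjecture and for the
identity components, says that all Tate tensors at `ℓ` are motivated. **Suppose that one Frobenius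
torus has the rank of `𝔤`**: the rank of `𝔤` is at most `r`, and

* (1) there is a place `v₀` of good reduction, above the prime number `p₀`, unramified in `K`, with `r`
  multiplicatively independent Frobenius eigenvalues on `M`; if there are several places above `p₀`
  suppose that they are independent (`MaximalRankAt`); or
* (2) `K = ℚ`, and at ONE prime number `ℓ₀` some element of the image of the Galois group of `ℚ` has `r`
  multiplicatively independent eigenvalues (`IndependentEigenvalues`); `(q v) ^ c` times the
  Frobenius eigenvalues are algebraic integers. For example, for motives over `k = ℚ` this is true if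
  Q1 holds for `M` at `ℓ₀`, by a theorem of Serre (`r` is the rank of `𝔤`).

**Theorem.** For every prime number `ℓ ≠ p₀` in (1), and for EVERY prime number `ℓ` in (2)
(`PartsTheorem`):

* the `ℓ`-adic realization of `M` is semisimple over all finite extensions;
* (`tate`) all Tate tensors on `M` are motivated if and only if this is true for each `M i`: **Q1 for
  the direct sum at `ℓ` is equivalent to Q1 for the summands `M i` at `ℓ`**;
* (`endos`) it is sufficient that, for each single `i`, the Tate classes in `End (M i)` are
  motivated: the Tate classes in `Hom (M i, M j)` for `i ≠ j` are then motivated, too, and so are the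
  Tate classes in all tensor constructions on `M`;
* (`mumfordTate`, that is `MumfordTateIff`) if `𝔪` (the Lie algebra of the Mumford-Tate group, it is
  reductive) has the rank `r`, the same is true for the equality of the Lie algebras of all three
  groups, the Mumford-Tate group, the motivic Galois group and the `ℓ`-adic monodromy group: it holds
  for `M` if and only if it holds for each `M i`, if and only if, for each single `i`, the Hodge
  classes (the endomorphisms commuting with `𝔪`) and the Tate classes in `End (M i)` are motivated.

The summands may be arbitrary. (In `OneFrobeniusPerPair` of this problem the adjoint realizations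
of the summands are irreducible, and in `SumsOfUnrelatedMotives` there are conditions at a dense set
of places.) A Frobenius torus whose rank is the rank of `𝔤` is also necessary for Q1: if Q1 holds for
`M`, then the Frobenius tori at almost all places (density one, over a finite extension) have this
rank.

The starting files contain the theorem that the `ℓ`-adic realization of `M` is semisimple, and that
Q1 for `M` is equivalent to the part for the endomorphisms of the whole sum (`RankTheorem`, library
`N203.RE`). New is that only the endomorphisms of the single summands are needed.

**Proof.** By the starting files the Lie algebra `L` of the endomorphisms which kill all Tate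
tensors is reductive and contains a maximal torus `t` of `𝔤`, over the complex numbers. The images
`L i` and `𝔤 i` in the endomorphisms of `M i` contain the image `t i` of `t`. The replicas of the
elements of `t` are in `t`, and this shows that the trace forms of `L i` and `𝔤 i` on `M i` are
nondegenerate: an element of a root space of the radical gives an element `h` of `t` in the
radical, and the trace of `h f(h)` on `M i`, for a rational linear form `f`, is a positive definite
form of the numbers `f(a)`, for the eigenvalues `a` of `h`. So `t i` is a maximal torus of `𝔤 i`, and
`L i` is completely reducible. The endomorphisms of `M i` which commute with `L i` commute with a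
subgroup of finite index of `Γ`, so they commute with `𝔤 i`, and by the theorem on subalgebras of
maximal rank with the same stable subspaces (library `R931.BD`) `L i = 𝔤 i`, for every `i`. Finally, if
`X` in `𝔤` is a root vector for `t`, some block `X i` is not zero; there is an element `Y` of the same
weight of `L` with the same block, and as the root spaces are one-dimensional, `X` is a multiple of
`Y` (theorem `gour` of library `Y212.RM`). So `L = 𝔤`.
-/

set_option autoImplicit false

namespace Pool.Agent.Results.MP_d61fbb_ag.SumsOfMaximalRank

open NumberField IsDedekindDomain Module Polynomial Pool.Agent.Y114.RM Pool.Agent.R931.IR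
  Pool.Agent.N203.RE Pool.Agent.K6.H79.MT

/-- **The motivic Sato-Tate conjecture for sums of motives, from one Frobenius torus of maximal
rank.** -/
theorem result {Γ : Type} [Group Γ] [TopologicalSpace Γ] [IsTopologicalGroup Γ] [CompactSpace Γ]
    -- the motives `M i`, and the Lie algebra of the motivic Galois group of their sum
    {ι : Type} [Fintype ι] [DecidableEq ι] {n : ι → ℕ} (w : ι → ℤ)
    (𝔤 : Submodule ℚ (End ℚ (Betti n))) (r : ℕ) (hrank : RatRankLE 𝔤 r) :
    -- one Frobenius torus of maximal rank, over a number field
    (∀ (K : Type) [Field K] [NumberField K] (s : Gal(AlgebraicClosure K/K) →* Γ)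
      (S : Set (HeightOneSpectrum (𝓞 K))) (P : HeightOneSpectrum (𝓞 K) → ι → ℚ[X])
      (ρ : ∀ (ℓ : ℕ) [Fact ℓ.Prime], Reps Γ n ℓ), Realizations s w S P ρ 𝔤 →
      ∀ p₀ : ℕ, MaximalRankAt S P r p₀ →
      ∀ (ℓ : ℕ) [Fact ℓ.Prime], ℓ ≠ p₀ → PartsTheorem (ρ ℓ) 𝔤 r) ∧
    -- one element at one prime number, over the rational numbers
    (∀ (s : Gal(AlgebraicClosure ℚ/ℚ) →* Γ)
      (S : Set (HeightOneSpectrum (𝓞 ℚ))) (P : HeightOneSpectrum (𝓞 ℚ) → ι → ℚ[X])
      (ρ : ∀ (ℓ : ℕ) [Fact ℓ.Prime], Reps Γ n ℓ), Realizations s w S P ρ 𝔤 →
      ∀ c : ℕ, IntegralOutside S P c →
      ∀ (ℓ₀ : ℕ) [Fact ℓ₀.Prime], (∃ σ, IndependentEigenvalues (ρ ℓ₀) (s σ) r) →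
      ∀ (ℓ : ℕ) [Fact ℓ.Prime], PartsTheorem (ρ ℓ) 𝔤 r) :=
  ⟨fun _ _ _ _ _ _ _ h p₀ hp ℓ _ hℓ => main_place h r hrank p₀ hp ℓ hℓ,
    fun _ _ _ _ h c hint ℓ₀ _ hσ ℓ _ => main_element h c hint r hrank ℓ₀ hσ ℓ⟩

end Pool.Agent.Results.MP_d61fbb_ag.SumsOfMaximalRank
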