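import Pool.Agent.K6.H79.ST.Main
import Pool.Agent.K6.H79.ST.Norm

/-!
# The motivic Sato-Tate conjecture for the sum of two motives whose Frobenius eigenvalues are unrelated

Let `M₁` and `M₂` be two motives over a finitely generated field `k` of characteristic zero (of André, or for
absolute Hodge cycles), pure of the same weight `w` and polarized, and `M = M₁ ⊕ M₂`. Let `V₁`, `V₂` be
their `ℓ`-adic realizations with the actions `ρ₁`, `ρ₂` of the Galois group `Γ` of `k`, `χ` the multiplier
(the character by which `Γ` acts on the polarizations), and `𝔤₁`, `𝔤₂`, `𝔤` the Lie algebras over `ℚ_ℓ`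
of the kernels `𝒢₁(M₁)`, `𝒢₁(M₂)`, `𝒢₁(M)` of the multiplier on the motivic Galois groups. So `𝔤`
consists of pairs of endomorphisms in `𝔤₁` and `𝔤₂`, and its projections to `𝔤₁` and `𝔤₂` are
surjective (`IsLieOfSum`, the only property which is used).

**The conjecture** (`SatoTate`). A *Sato-Tate form* is a multilinear form `f` on `V`, in any number `m` of
variables, such that the elements `s` of a subgroup of finite index of `Γ` multiply `f ⊗ f` by `χ(s) ^ m`.
These are the invariants of the identity component of `G_{1,ℓ}(M)`: the group `Γ` is Zariski dense in
`G_ℓ(M)`, and `G_ℓ(M)°` is generated by `G_{1,ℓ}(M)°` and, if `w ≠ 0`, homotheties. As the groups respect a polarization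
(so that `V` and its dual space are isomorphic) and `𝒢₁(M)` is reductive, the equality `G_{1,ℓ}(M)° =
𝒢₁(M)°` says that `V` is semisimple and that all Sato-Tate forms are killed by the Lie algebra `𝔤`.
This equality is equivalent to Q1 for `M` (in the problem file: the motivic Mumford-Tate conjecture,
which is about the identity components, is equivalent to Q1).

**The condition** (`IsGood`). We suppose that a dense set of elements `s` of `Γ` has the following
properties. They are properties of Frobenius elements (arithmetic ones, if `w < 0`), `q` being a power of
the order of the residue field (with the exponent `|w|`), and one needs them for almost all places: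

* `χ(s) = q`, and the minimal polynomial of `s` on `V₁` has rational coefficients and no multiple roots;
* *the relations between the eigenvalues of `s` on `V₁` and on `V₂` split*: if a product of eigenvalues on `V₁`
  and of eigenvalues on `V₂` is a power of `q`, up to a root of unity, then the product of the first ones
  is a power of `√q`, up to a root of unity.

Nothing is supposed about the relations between the eigenvalues on `V₁`, or between those on `V₂`,
about the motivic Galois groups (they may be tori or have simple factors in common), Hodge
numbers, or the irreducibility or semisimplicity of `V₁` and `V₂`.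

*Example* (`relationsSplit_of_conjugates` in `K6/H79/ST/Norm`). The relations at `s` split if for each
eigenvalue `α` of `s` on `V₁` some automorphism of `ℂ` maps `α` to its complex conjugate `q / α` and
fixes positive powers of all the eigenvalues on `V₂`: in other words, if over the field generated by
certain powers of the eigenvalues of `M₂` the irreducible factors of the Frobenius polynomial of
`M₁` are still reciprocal. This is a condition on the Galois groups of the two polynomials only.
(Norm argument: the product of the conjugates of `α` over this field does not change if `α` is replaced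
by `q / α`, so that its square is a power of `q`.)

**Theorem.** Under this condition, the conjecture holds for `M₁ ⊕ M₂` if and only if it holds for `M₁`
and for `M₂`. This is true for all subspaces `𝔤` with the projections `𝔤₁` and `𝔤₂`, for instance for
the Lie algebra of `𝒢₁(M)` and for `𝔤₁ × 𝔤₂`; so in this case also `𝒢₁(M)° = 𝒢₁(M₁)° × 𝒢₁(M₂)°`, and
the Sato-Tate group of `M` is the product of those of `M₁` and `M₂` up to finite index.

For abelian varieties a theorem of this type is known without the condition (Commelin); its proof uses
the theory of Deligne and Faltings for `H¹`. Here the motives are arbitrary.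

**Proof.** Let `f` be a Sato-Tate form on `V₁ ⊕ V₂`, and let `F(v, w)` be a component of it, `v` denoting
`a` variables in `V₁` and `w` denoting `b` variables in `V₂`. We consider `F ⊗ F` as a form on `V₁` with
values in the space `H` of the forms in `2 b` variables on `V₂`. At a good element `s`, the values of `F ⊗ F`
at eigenvectors of `s` are (generalized) eigenvectors in `H`, and the eigenvalues on `H` are products of
eigenvalues on `V₂` (`root_form`). Since the relations split, `s ^ N` multiplies the
variables in `V₁` by `q ^ (a N / 2)`, for an exponent `N` which depends only on `a` and on the dimension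
of `V₁` (the root of unity has a bounded number of conjugates). By continuity this is true for all
elements of `Γ`, and also for the conjugates of the form. So on the smallest stable space of forms which
contains `F ⊗ F` all elements of `Γ` act, after a twist, with finite order (on the variables in `V₁`), and
by a theorem on compact `ℓ`-adic groups a subgroup of finite index acts trivially. Hence `F( · , w)` is a
Sato-Tate form on `V₁` for each `w`, and therefore also `F(v, · )` is a Sato-Tate form on `V₂` for each `v`.
-/

set_option autoImplicit false

namespace Pool.Agent.Results.MP_d61fbb_ag.SumsOfUnrelatedMotives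

open Module Pool.Agent.K6.H79.ST

/-- **The Sato-Tate conjecture for the sum of two motives** whose Frobenius eigenvalues are unrelated. -/
theorem result {ℓ : ℕ} [Fact ℓ.Prime] {Γ : Type} [Group Γ] [TopologicalSpace Γ]
    [IsTopologicalGroup Γ] [CompactSpace Γ] {V₁ V₂ : Type} [AddCommGroup V₁] [Module ℚ_[ℓ] V₁]
    [FiniteDimensional ℚ_[ℓ] V₁] [AddCommGroup V₂] [Module ℚ_[ℓ] V₂] [FiniteDimensional ℚ_[ℓ] V₂]
    (ρ₁ : Representation ℚ_[ℓ] Γ V₁) (ρ₂ : Representation ℚ_[ℓ] Γ V₂) (χ : Γ →* ℚ_[ℓ])
    (hρ : Continuous' ρ₁) (hχ : Continuous χ) (hgood : Dense {s : Γ | IsGood ρ₁ ρ₂ χ s})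
    (𝔤₁ : Submodule ℚ_[ℓ] (End ℚ_[ℓ] V₁)) (𝔤₂ : Submodule ℚ_[ℓ] (End ℚ_[ℓ] V₂))
    (𝔤 : Submodule ℚ_[ℓ] (End ℚ_[ℓ] (V₁ × V₂))) (h𝔤 : IsLieOfSum 𝔤₁ 𝔤₂ 𝔤) :
    SatoTate (sumRep ρ₁ ρ₂) χ 𝔤 ↔ SatoTate ρ₁ χ 𝔤₁ ∧ SatoTate ρ₂ χ 𝔤₂ :=
  satoTate_sum hρ hχ hgood h𝔤

end Pool.Agent.Results.MP_d61fbb_ag.SumsOfUnrelatedMotives
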